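import Pool.Agent.Y303.EJ.W
import Pool.Agent.Y907.EJ.End

/-!
Project EJ (helper303), job EJW-2 (helper310): integration by parts for `H¹` fields.
-/

open Set Filter Topology MeasureTheory Metric

set_option autoImplicit false

namespace Pool.Agent.Y310.EJ

open Pool.Agent.Y5 (E3)
open Pool.Agent.Y303.SK
open Pool.Agent.Y303.EJ
open Pool.Agent.Y500.SK (inner_toLp lap dirf_eq lap_memLp expand norm_sq_toLp)

/-- convergence in `L²` -/
def Cv (f : ℕ → E3 → E3) (g : E3 → E3) : Prop :=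
  (∀ n, MemLp (f n) 2 volume) ∧ MemLp g 2 volume ∧
    Tendsto (fun n => ∫ x, ‖g x - f n x‖ ^ 2) atTop (𝓝 0)

theorem Cv.const {g : E3 → E3} (hg : MemLp g 2 volume) : Cv (fun _ => g) g := by
  refine ⟨fun _ => hg, hg, ?_⟩
  simp

theorem Cv.toLp {f : ℕ → E3 → E3} {g : E3 → E3} (h : Cv f g) :
    Tendsto (fun n => (h.1 n).toLp (f n)) atTop (𝓝 (h.2.1.toLp g)) := by
  rw [tendsto_iff_norm_sub_tendsto_zero]
  have h1 : Tendsto (fun n => ‖(h.1 n).toLp (f n) - h.2.1.toLp g‖ ^ 2) atTop (𝓝 0) := by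
    refine h.2.2.congr (fun n => ?_)
    rw [norm_sub_rev, ← MemLp.toLp_sub, norm_sq_toLp]
    rfl
  have h2 := (Real.continuous_sqrt.tendsto 0).comp h1
  simp only [Function.comp_def, Real.sqrt_zero] at h2
  refine h2.congr (fun n => ?_)
  rw [Real.sqrt_sq (norm_nonneg _)]

theorem Cv.ipr {f f' : ℕ → E3 → E3} {g g' : E3 → E3} (h : Cv f g) (h' : Cv f' g') :
    Tendsto (fun n => ipr (f n) (f' n)) atTop (𝓝 (ipr g g')) := by
  have h1 := h.toLp.inner (𝕜 := ℝ) h'.toLp
  rw [inner_toLp] at h1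
  refine h1.congr (fun n => ?_)
  rw [inner_toLp]

theorem Cv.of_le {f f' : ℕ → E3 → E3} {g g' : E3 → E3} (h : Cv f g) (h1 : ∀ n, MemLp (f' n) 2 volume)
    (h2 : MemLp g' 2 volume) (K : ℝ) (h3 : ∀ n x, ‖g' x - f' n x‖ ≤ K * ‖g x - f n x‖) : Cv f' g' := by
  refine ⟨h1, h2, ?_⟩
  have h4 : Tendsto (fun n => K ^ 2 * ∫ x, ‖g x - f n x‖ ^ 2) atTop (𝓝 0) := by
    have := h.2.2.const_mul (K ^ 2)
    rwa [mul_zero] at this
  refine squeeze_zero (fun n => integral_nonneg (fun x => by positivity)) (fun n => ?_) h4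
  rw [← integral_const_mul]
  refine integral_mono ((h2.sub (h1 n)).integrable_norm_pow two_ne_zero)
    (((h.2.1.sub (h.1 n)).integrable_norm_pow two_ne_zero).const_mul _) (fun x => ?_)
  calc ‖g' x - f' n x‖ ^ 2 ≤ (K * ‖g x - f n x‖) ^ 2 := pow_le_pow_left₀ (norm_nonneg _) (h3 n x) 2
    _ = K ^ 2 * ‖g x - f n x‖ ^ 2 := by ring

theorem memLp_clm {A : E3 → E3 →L[ℝ] E3} (hA : Continuous A) {K : ℝ} (hK : ∀ x, ‖A x‖ ≤ K) {v : E3 → E3}
    (hv : MemLp v 2 volume) : MemLp (fun x => A x (v x)) 2 volume := by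
  refine MemLp.of_le_mul (c := K) hv ?_ (Eventually.of_forall fun x => ?_)
  · exact isBoundedBilinearMap_apply.continuous.comp_aestronglyMeasurable
      (hA.aestronglyMeasurable.prodMk hv.1)
  · refine ((A x).le_opNorm _).trans ?_
    gcongr
    exact hK x

theorem coord_le (y : E3) (i : Fin 3) : |y i| ≤ ‖y‖ := by
  have := PiLp.norm_apply_le y i
  rwa [Real.norm_eq_abs] at this

theorem memLp_smul {u : E3 → E3} (hu : Continuous u) {K : ℝ} (hK : ∀ x, ‖u x‖ ≤ K) {v : E3 → E3}
    (hv : MemLp v 2 volume) (i : Fin 3) : MemLp (fun x => v x i • u x) 2 volume := by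
  refine MemLp.of_le_mul (c := K) hv ?_ (Eventually.of_forall fun x => ?_)
  · exact ((EuclideanSpace.proj i : E3 →L[ℝ] ℝ).continuous.comp_aestronglyMeasurable hv.1).smul
      hu.aestronglyMeasurable
  · rw [norm_smul, Real.norm_eq_abs, mul_comm]
    exact mul_le_mul (hK x) (coord_le (v x) i) (abs_nonneg _) ((norm_nonneg _).trans (hK x))

theorem integrable_ipr {v w : E3 → E3} (hv : MemLp v 2 volume) (hw : MemLp w 2 volume) :
    Integrable (fun x => inner ℝ (v x) (w x)) := by
  have h := L2.integrable_inner (𝕜 := ℝ) (hv.toLp v) (hw.toLp w)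
  refine h.congr ?_
  filter_upwards [hv.coeFn_toLp, hw.coeFn_toLp] with x h1 h2
  rw [h1, h2]

theorem gf_eq {G : E3 → Fin 3 → E3} {w : E3 → E3} (hG : ∀ i, MemLp (fun x => G x i) 2 volume)
    (hw : ∀ i, MemLp (fun x => fderiv ℝ w x (cv i)) 2 volume) :
    gf G w = ∑ i : Fin 3, ipr (fun x => G x i) (fun x => fderiv ℝ w x (cv i)) := by
  unfold gf Pool.Agent.Y303.SK.ipr
  exact integral_finsetSum _ fun i _ => integrable_ipr (hG i) (hw i)

theorem av_eq {v : E3 → E3} {G : E3 → Fin 3 → E3} {w : E3 → E3} (hG : ∀ i, MemLp (fun x => G x i) 2 volume)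
    (hw : ∀ i, MemLp (fun x => v x i • w x) 2 volume) :
    av v G w = ∑ i : Fin 3, ipr (fun x => G x i) (fun x => v x i • w x) := by
  unfold av Pool.Agent.Y303.SK.ipr
  rw [← integral_finsetSum _ fun i _ => integrable_ipr (hG i) (hw i)]
  refine integral_congr_ae (Eventually.of_forall fun x => ?_)
  simp only [sum_inner]
  refine Finset.sum_congr rfl fun i _ => ?_
  rw [real_inner_smul_left, real_inner_smul_right]

theorem adv_eq (v u w : E3 → E3) : adv v u w = ipr (fun x => fderiv ℝ u x (v x)) w := rfl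

theorem t_W2 : S_W2 := by
  intro Ω v u G _ _ hvG hu hc
  have hle : (1 : WithTop ℕ∞) ≤ 2 := by norm_num
  have hu1 : ContDiff ℝ 1 u := hu.of_le hle
  have huc : Continuous u := hu.continuous
  have hdc : Continuous (fderiv ℝ u) := hu.continuous_fderiv (by norm_num)
  obtain ⟨K0, hK0⟩ := hc.exists_bound_of_continuous huc
  obtain ⟨K1, hK1⟩ := (hc.fderiv (𝕜 := ℝ)).exists_bound_of_continuous hdc
  have hum : MemLp u 2 volume := huc.memLp_of_hasCompactSupport hc
  have hdm : ∀ i, MemLp (fun x => fderiv ℝ u x (cv i)) 2 volume := fun i =>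
    (hdc.clm_apply continuous_const).memLp_of_hasCompactSupport
      (HasCompactSupport.intro hc fun x hx => by
        have : fderiv ℝ u x = 0 := image_eq_zero_of_notMem_tsupport fun h => hx (tsupport_fderiv_subset ℝ h)
        rw [this]; simp)
  obtain ⟨hv, hG, happ⟩ := hvG
  choose w hw hw1 hw2 using fun n : ℕ => happ (1 / ((n : ℝ) + 1)) (by positivity)
  have hws : ∀ n, ContDiff ℝ 1 (w n) := fun n => (hw n).smooth.of_le (by
    change ((1 : ℕ∞) : WithTop ℕ∞) ≤ ((⊤ : ℕ∞) : WithTop ℕ∞)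
    exact_mod_cast le_top)
  have hwm : ∀ n, MemLp (w n) 2 volume := fun n => Pool.Agent.Y500.SK.CS.memLp (hw n)
  have hwd : ∀ n i, MemLp (fun x => fderiv ℝ (w n) x (cv i)) 2 volume := fun n i =>
    (((hws n).continuous_fderiv (by norm_num)).clm_apply continuous_const).memLp_of_hasCompactSupport
      (HasCompactSupport.intro (hw n).cpt fun x hx => by
        have : fderiv ℝ (w n) x = 0 := image_eq_zero_of_notMem_tsupport fun h => hx (tsupport_fderiv_subset ℝ h)
        rw [this]; simp)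
  have hlim : Tendsto (fun n : ℕ => 1 / ((n : ℝ) + 1)) atTop (𝓝 0) := tendsto_one_div_add_atTop_nhds_zero_nat
  have cw : Cv w v :=
    ⟨hwm, hv, squeeze_zero (fun n => integral_nonneg (fun x => by positivity)) (fun n => (hw1 n).le) hlim⟩
  have cG : ∀ i, Cv (fun n x => fderiv ℝ (w n) x (cv i)) (fun x => G x i) := by
    intro i
    refine ⟨fun n => hwd n i, hG i, squeeze_zero (fun n => integral_nonneg (fun x => by positivity))
      (fun n => ?_) hlim⟩
    refine le_trans ?_ (hw2 n).le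
    refine integral_mono (((hG i).sub (hwd n i)).integrable_norm_pow two_ne_zero)
      (integrable_finsetSum _ fun j _ => ((hG j).sub (hwd n j)).integrable_norm_pow two_ne_zero) (fun x => ?_)
    exact Finset.single_le_sum (f := fun j : Fin 3 => ‖G x j - fderiv ℝ (w n) x (cv j)‖ ^ 2)
      (fun j _ => by positivity) (Finset.mem_univ i)
  have cs : ∀ i, Cv (fun n x => w n x i • u x) (fun x => v x i • u x) := by
    intro i
    refine cw.of_le (fun n => memLp_smul huc hK0 (hwm n) i) (memLp_smul huc hK0 hv i) K0 (fun n x => ?_)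
    rw [← sub_smul, norm_smul, Real.norm_eq_abs, mul_comm]
    have h3 : v x i - w n x i = (v x - w n x) i := rfl
    rw [h3]
    exact mul_le_mul (hK0 x) (coord_le (v x - w n x) i) (abs_nonneg _) ((norm_nonneg _).trans (hK0 x))
  have cd : Cv (fun n x => fderiv ℝ u x (w n x)) (fun x => fderiv ℝ u x (v x)) := by
    refine cw.of_le (fun n => memLp_clm hdc hK1 (hwm n)) (memLp_clm hdc hK1 hv) K1 (fun n x => ?_)
    rw [← map_sub]
    refine ((fderiv ℝ u x).le_opNorm _).trans ?_
    have := hK1 x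
    gcongr
  refine ⟨?_, ?_, ?_⟩
  · have t1 : Tendsto (fun n => av (w n) (fun x i => fderiv ℝ (w n) x (cv i)) u) atTop (𝓝 (av v G u)) := by
      rw [av_eq hG fun i => memLp_smul huc hK0 hv i]
      refine (tendsto_finsetSum _ fun i _ => (cG i).ipr (cs i)).congr (fun n => ?_)
      rw [av_eq (fun i => hwd n i) fun i => memLp_smul huc hK0 (hwm n) i]
    have t2 : Tendsto (fun n => -adv (w n) u (w n)) atTop (𝓝 (-adv v u v)) := (cd.ipr cw).neg
    refine tendsto_nhds_unique t1 (t2.congr (fun n => ?_))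
    rw [← Pool.Agent.Y907.EJ.adv_anti2 (hws n) (hw n).dv (hws n) hu1 hc]
    unfold adv av
    refine integral_congr_ae (Eventually.of_forall fun x => ?_)
    simp only
    congr 1
    conv_lhs => rw [expand (w n x)]
    rw [map_sum]
    exact Finset.sum_congr rfl fun i _ => by rw [map_smul]
  · have t1 : Tendsto (fun n => gf (fun x i => fderiv ℝ (w n) x (cv i)) u) atTop (𝓝 (gf G u)) := by
      rw [gf_eq hG hdm]
      refine (tendsto_finsetSum _ fun i _ => (cG i).ipr (Cv.const (hdm i))).congr (fun n => ?_)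
      rw [gf_eq (fun i => hwd n i) hdm]
    have t2 : Tendsto (fun n => -ipr (lap u) (w n)) atTop (𝓝 (-ipr (lap u) v)) :=
      ((Cv.const (lap_memLp hu hc)).ipr cw).neg
    refine tendsto_nhds_unique t1 (t2.congr (fun n => ?_))
    rw [← dirf_eq u (w n) hu (hws n) (hw n).cpt, Pool.Agent.Y907.EJ.dirf_comm]
    rfl
  · have t1 : Tendsto (fun n => adv (w n) u u) atTop (𝓝 (adv v u u)) := cd.ipr (Cv.const hum)
    refine tendsto_nhds_unique t1 (tendsto_const_nhds.congr (fun n => ?_))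
    have := Pool.Agent.Y907.EJ.adv_anti2 (hws n) (hw n).dv hu1 hu1 hc
    linarith

end Pool.Agent.Y310.EJ
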